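import Pool.Agent.Q196.IC.Form

/-!
# Total curvature of index one and handle decompositions without 1-handles

Let `M` be a closed 4-manifold, `f` a smooth function and `F : M → ℝ^N` a smooth immersion. For
`v ∈ ℝ^N` let `f_v = f + ⟨v, F⟩`. The set of the parameters `v ∈ B` for which `f_v` is not a Morse
function without critical points of index one has measure at most the total curvature of index one
of the family over `B`; if this curvature is less than the measure of `B`, then some `f_v`, `v ∈ B`,
is a Morse function without critical points of index one.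
-/

set_option autoImplicit false

namespace Pool.Agent.Results.MP_f18604_gt.IndexOneCurvature

open MeasureTheory Module
open scoped ENNReal RealInnerProductSpace ContDiff MeasureTheory Manifold

abbrev E (n : ℕ) := EuclideanSpace ℝ (Fin n)

/-- bilinear forms on `ℝ⁴` -/
abbrev Form := E 4 →L[ℝ] E 4 →L[ℝ] ℝ

/-- the value of a bilinear form -/
noncomputable def val (H : Form) (v w : E 4) : ℝ := H v w

/-- nondegenerate -/
def Nondeg (H : Form) : Prop := ∀ v, (∀ w, val H v w = 0) → v = 0

/-- positive definite -/
def PosDef (H : Form) : Prop := ∀ v, v ≠ 0 → 0 < val H v v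

/-- negative definite on some plane -/
def NegPlane (H : Form) : Prop :=
  ∃ V : Submodule ℝ (E 4), finrank ℝ V = 2 ∧ ∀ v ∈ V, v ≠ 0 → val H v v < 0

/-- the determinant of a bilinear form in the standard basis -/
noncomputable def hdet (H : Form) : ℝ :=
  (Matrix.of fun i j : Fin 4 => val H (EuclideanSpace.single i 1) (EuclideanSpace.single j 1)).det

/-- the determinant of the inner products of the images of the standard basis -/
noncomputable def gram {N : ℕ} (A : E 4 →L[ℝ] E N) : ℝ :=
  (Matrix.of fun i j : Fin 4 =>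
    ⟪A (EuclideanSpace.single i 1), A (EuclideanSpace.single j 1)⟫).det

variable {M : Type} [TopologicalSpace M] [ChartedSpace (E 4) M] {N : ℕ}

/-- the coordinates of the chart at `c` -/
noncomputable def chart (c : M) : PartialEquiv M (E 4) := extChartAt (𝓡 4) c

/-- `h` read in the chart at `c` -/
noncomputable def inChart {X : Type} (h : M → X) (c : M) : E 4 → X :=
  fun z => h ((chart c).symm z)

/-- smooth functions -/
def Smooth (f : M → ℝ) : Prop := ContMDiff (𝓡 4) 𝓘(ℝ, ℝ) ∞ f

/-- smooth immersions: the derivative at each point, read in the chart at this point, is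
injective -/
structure Immersion (F : M → E N) : Prop where
  smooth : ContMDiff (𝓡 4) 𝓘(ℝ, E N) ∞ F
  inj : ∀ x, Function.Injective (fderiv ℝ (inChart F x) (chart x x))

/-- the function `f + ⟨v, F⟩` -/
noncomputable def pert (f : M → ℝ) (F : M → E N) (v : E N) : M → ℝ := fun x => f x + ⟪v, F x⟫

/-- the point with coordinate `z` in the chart at `c` is a critical point of `h` -/
def Critical (h : M → ℝ) (c : M) (z : E 4) : Prop := fderiv ℝ (inChart h c) z = 0

/-- the second derivative at `z` of `h` read in the chart at `c` -/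
noncomputable def hess (h : M → ℝ) (c : M) (z : E 4) : Form :=
  fderiv ℝ (fderiv ℝ (inChart h c)) z

/-- every critical point is nondegenerate and its index is not one (its Hessian is positive definite
or negative definite on a plane) -/
def MorseNoOne (h : M → ℝ) : Prop :=
  ∀ x : M, Critical h x (chart x x) →
    Nondeg (hess h x (chart x x)) ∧ (PosDef (hess h x (chart x x)) ∨ NegPlane (hess h x (chart x x)))

/-- the parameters `v ∈ B` for which the point with coordinate `z` in the chart at `c` is a critical
point of `f + ⟨v, F⟩` whose Hessian is neither positive definite nor negative definite on a plane -/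
def params (f : M → ℝ) (F : M → E N) (B : Set (E N)) (c : M) (z : E 4) : Set (E N) :=
  {v | v ∈ B ∧ Critical (pert f F v) c z ∧
    ¬ PosDef (hess (pert f F v) c z) ∧ ¬ NegPlane (hess (pert f F v) c z)}

/-- the density of the curvature of index one in the chart at `c` -/
noncomputable def density (f : M → ℝ) (F : M → E N) (B : Set (E N)) (c : M) (z : E 4) : ℝ≥0∞ :=
  (∫⁻ v in params f F B c z, ENNReal.ofReal |hdet (hess (pert f F v) c z)| ∂μHE[N - 4]) /
    ENNReal.ofReal (Real.sqrt (gram (fderiv ℝ (inChart F c) z)))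

/-- a countable cover of `M` by measurable pieces in charts -/
structure Cover (P : ℕ → M × Set (E 4)) : Prop where
  meas : ∀ i, MeasurableSet (P i).2
  sub : ∀ i, (P i).2 ⊆ (chart (P i).1).target
  cov : ∀ x, ∃ i, ∃ z ∈ (P i).2, (chart (P i).1).symm z = x

/-- the total curvature of index one of the family `f + ⟨v, F⟩`, `v ∈ B` -/
noncomputable def curvature (f : M → ℝ) (F : M → E N) (B : Set (E N)) : ℝ≥0∞ :=
  ⨅ (P : ℕ → M × Set (E 4)) (_ : Cover P), ∑' i, ∫⁻ z in (P i).2, density f F B (P i).1 z

theorem result (M : Type) [TopologicalSpace M] [ChartedSpace (E 4) M] [IsManifold (𝓡 4) ∞ M]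
    [T2Space M] [CompactSpace M] (f : M → ℝ) (hf : Smooth f) (N : ℕ) (F : M → E N)
    (hF : Immersion F) (B : Set (E N)) (hB : MeasurableSet B) :
    volume {v | v ∈ B ∧ ¬ MorseNoOne (pert f F v)} ≤ curvature f F B ∧
      (curvature f F B < volume B → ∃ v ∈ B, Smooth (pert f F v) ∧ MorseNoOne (pert f F v)) := by
  have h1 : volume {v | v ∈ B ∧ ¬ MorseNoOne (pert f F v)} ≤ curvature f F B := by
    refine le_iInf fun P => le_iInf fun hP => ?_
    have h2 := Q196.IC.man_ineq hf hF.smooth hF.inj hB Q196.IC.isOpen_good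
      (fun H H' L hL h hH => Q196.IC.good_invariant hL h hH) P
      (fun i => ⟨hP.meas i, hP.sub i⟩) hP.cov
    have h3 : ∀ c z, Q196.IC.dn (Q196.IC.rd f c) (Q196.IC.rd F c) B Q196.IC.goodᶜ z =
        density f F B c z := by
      intro c z
      have h4 : Q196.IC.crs (Q196.IC.rd f c) (Q196.IC.rd F c) B Q196.IC.goodᶜ z =
          params f F B c z := by
        ext v
        have h5 : Q196.IC.hs (Q196.IC.rd f c) (Q196.IC.rd F c) v z ∈
            (Q196.IC.goodᶜ : Set (E 4 →L[ℝ] E 4 →L[ℝ] ℝ)) ↔
            ¬ PosDef (hess (pert f F v) c z) ∧ ¬ NegPlane (hess (pert f F v) c z) :=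
          not_or
        exact and_congr Iff.rfl (and_congr Iff.rfl h5)
      have h6 : LinearMap.det (Q196.IC.gr (fderiv ℝ (Q196.IC.rd F c) z) : E 4 →ₗ[ℝ] E 4) =
          gram (fderiv ℝ (inChart F c) z) := Q196.IC.det_gr_eq _
      have h7 : finrank ℝ (E N) - finrank ℝ (E 4) = N - 4 := by simp
      rw [Q196.IC.dn, density, h4, h6, h7]
      congr 1
      refine lintegral_congr fun v => ?_
      have h8 : LinearMap.det (Q196.IC.opOf
          (Q196.IC.hs (Q196.IC.rd f c) (Q196.IC.rd F c) v z)) = hdet (hess (pert f F v) c z) :=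
        Q196.IC.det_opOf_eq _
      rw [h8]
    simp_rw [h3] at h2
    refine le_trans (measure_mono ?_) h2
    rintro v ⟨hvB, hv⟩
    refine ⟨hvB, ?_⟩
    unfold MorseNoOne at hv
    push Not at hv
    obtain ⟨x, hx0, hx⟩ := hv
    refine ⟨x, hx0, ?_⟩
    rintro ⟨hn, hg⟩
    obtain ⟨h9, h10⟩ := hx hn
    rcases hg with hg | hg
    · exact h9 hg
    · exact h10 hg
  refine ⟨h1, fun hlt => ?_⟩
  by_contra hcon
  have h2 : B ⊆ {v | v ∈ B ∧ ¬ MorseNoOne (pert f F v)} := by
    intro v hv
    refine ⟨hv, fun hm => hcon ⟨v, hv, ?_, hm⟩⟩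
    have h3 : ContMDiff (𝓡 4) 𝓘(ℝ, ℝ) ∞ (fun y => (innerSL ℝ v) (F y)) :=
      (innerSL ℝ v).contMDiff.comp hF.smooth
    exact ContMDiff.add hf h3
  exact absurd ((measure_mono h2).trans h1) (not_le.2 hlt)

end Pool.Agent.Results.MP_f18604_gt.IndexOneCurvature
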